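import Pool.Agent.SGL.StmtsG

set_option autoImplicit false

noncomputable section

namespace Pool.Agent.SGL.H88

open Pool.Agent.SGE Pool.Agent.SGP Pool.Agent.SGY Pool.Agent.SGD

theorem hh_ge (N : ℕ) {j : ℕ} (hj : j ≤ N + 1) :
    1 ≤ ((N : ℝ) + 3) ^ j ∧ ((N : ℝ) + 3) ^ j ≤ hh N := by
  have h1 : (1 : ℝ) ≤ (N : ℝ) + 3 := by
    have : (0 : ℝ) ≤ N := Nat.cast_nonneg _
    linarith
  exact ⟨one_le_pow₀ h1, pow_le_pow_right₀ h1 hj⟩

theorem hh_one (N : ℕ) : 1 ≤ hh N := (hh_ge N (Nat.zero_le _)).1.trans (hh_ge N (Nat.zero_le _)).2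

theorem bb_ge (N : ℕ) : 1 ≤ bb N := by
  unfold bb
  have h1 := hh_one N
  have : (0 : ℝ) ≤ N := Nat.cast_nonneg _
  nlinarith

/-- the power of a slice: `B L = B ^ s`, `1 ≤ L`, and all lower slices are `≤ L`. -/
theorem bb_slice (N s : ℕ) (hs : 1 ≤ s) : ∃ L : ℝ, 1 ≤ L ∧ bb N ^ s = bb N * L ∧
    ∀ t, t < s → bb N ^ t ≤ L := by
  refine ⟨bb N ^ (s - 1), one_le_pow₀ (bb_ge N), ?_, ?_⟩
  · obtain ⟨u, rfl⟩ : ∃ u, s = u + 1 := ⟨s - 1, by omega⟩
    rw [Nat.add_sub_cancel, pow_succ]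
    ring
  · intro t ht
    exact pow_le_pow_right₀ (bb_ge N) (by omega)

theorem abs_mul_le {u v A C : ℝ} (hu : |u| ≤ A) (hv : |v| ≤ C) (hA : 0 ≤ A) : |u * v| ≤ A * C := by
  rw [abs_mul]
  exact mul_le_mul hu hv (abs_nonneg _) hA

/-- (1) one of the points is `a` -/
theorem ggp1 (N : ℕ) (W xp xq yp yq Y : ℝ) (hW : W = ((N : ℝ) + 2) * (Y + 1)) (hp0 : 0 ≤ xp)
    (hp1 : xp ≤ N + 1) (hq0 : 0 ≤ xq) (hyp : 0 ≤ yp) (hyq : yp + 1 ≤ yq)
    (hY : yq ≤ Y) : 0 < o (W, 0) (xq, yq) (xp, yp) := by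
  have hN : (0 : ℝ) ≤ N := Nat.cast_nonneg _
  have e : o (W, 0) (xq, yq) (xp, yp) = W * (yq - yp) + xq * yp - yq * xp := by
    unfold o
    simp only
    ring
  rw [e]
  have hY0 : 0 ≤ Y := by linarith
  have hW0 : 0 ≤ W := by
    rw [hW]
    positivity
  have h1 : W ≤ W * (yq - yp) := by nlinarith
  have h2 : 0 ≤ xq * yp := mul_nonneg hq0 hyp
  have h3 : yq * xp ≤ Y * (N + 1) := mul_le_mul hY hp1 hp0 hY0
  have h4 : Y * (N + 1) < W := by
    rw [hW]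
    nlinarith
  linarith

/-- (2) `r` alone in the highest slice -/
theorem ggp2 (N : ℕ) (L xp xq xr yp yq yr : ℝ) (hL : 1 ≤ L) (hx : xp + 1 ≤ xq)
    (hpr : |xr - xp| ≤ N + 1) (hp0 : 0 ≤ yp) (hp : yp ≤ L + hh N)
    (hq0 : 0 ≤ yq) (hq : yq ≤ L + hh N) (hr : bb N * L ≤ yr) :
    0 < o (xp, yp) (xq, yq) (xr, yr) := by
  have hN : (0 : ℝ) ≤ N := Nat.cast_nonneg _
  have hH := hh_one N
  have e : o (xp, yp) (xq, yq) (xr, yr) = (xq - xp) * (yr - yp) - (yq - yp) * (xr - xp) := by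
    unfold o
    simp only
  rw [e]
  have h1 : |yq - yp| ≤ L + hh N := by
    rw [abs_le]
    constructor <;> linarith
  have h2 := abs_mul_le h1 hpr (by linarith)
  have h3 := (abs_le.mp h2).2
  have hkey : (L + hh N) * (N + 1) < bb N * L - L - hh N := by
    have e2 : bb N * L - L - hh N - (L + hh N) * (N + 1) =
        ((N : ℝ) + 3) * 2 * L - L * (N + 2) + hh N * (((N : ℝ) + 3) * L - (N + 2)) := by
      unfold bb
      ring
    have h5 : 0 ≤ hh N * (((N : ℝ) + 3) * L - (N + 2)) := by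
      apply mul_nonneg (by linarith)
      nlinarith
    have h6 : 0 < ((N : ℝ) + 3) * 2 * L - L * (N + 2) := by nlinarith
    linarith
  have h7 : 0 ≤ (L + hh N) * (N + 1) := by positivity
  have h8 : bb N * L - L - hh N ≤ yr - yp := by linarith
  have h9 : yr - yp ≤ (xq - xp) * (yr - yp) := by nlinarith
  linarith

/-- (3) `p`, `q` in the highest slice -/
theorem ggp3 (N : ℕ) (L xp xq xr yp yq yr : ℝ) (hL : 1 ≤ L) (hx : xp + 1 ≤ xq)
    (hpr : |xr - xp| ≤ N + 1) (hpq : |yq - yp| ≤ hh N) (hp : bb N * L ≤ yp)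
    (hr : yr ≤ L + hh N) :
    0 < o (xq, yq) (xp, yp) (xr, yr) := by
  have hN : (0 : ℝ) ≤ N := Nat.cast_nonneg _
  have hH := hh_one N
  have e : o (xq, yq) (xp, yp) (xr, yr) = (xq - xp) * (yp - yr) + (yq - yp) * (xr - xp) := by
    unfold o
    simp only
    ring
  rw [e]
  have h2 := abs_mul_le hpq hpr (by linarith)
  have h3 := (abs_le.mp h2).1
  have hkey : hh N * (N + 1) < bb N * L - L - hh N := by
    have e2 : bb N * L - L - hh N - hh N * (N + 1) =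
        ((N : ℝ) + 3) * 2 * L - L + hh N * (((N : ℝ) + 3) * L - (N + 2)) := by
      unfold bb
      ring
    have h5 : 0 ≤ hh N * (((N : ℝ) + 3) * L - (N + 2)) := by
      apply mul_nonneg (by linarith)
      nlinarith
    have h6 : 0 < ((N : ℝ) + 3) * 2 * L - L := by nlinarith
    linarith
  have h7 : 0 ≤ hh N * (N + 1) := by positivity
  have h8 : bb N * L - L - hh N ≤ yp - yr := by linarith
  have h9 : yp - yr ≤ (xq - xp) * (yp - yr) := by nlinarith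
  linarith

/-- (4) all in one slice -/
theorem ggp4 (N : ℕ) (b m xp xq xr mp mq mr : ℝ) (hm : 1 ≤ m) (hx : xp + 1 ≤ xq)
    (hpr : |xr - xp| ≤ N + 1) (hp0 : 0 ≤ mp) (hp : mp ≤ m) (hq0 : 0 ≤ mq) (hq : mq ≤ m)
    (hr : ((N : ℝ) + 3) * m ≤ mr) :
    0 < o (xp, b + mp) (xq, b + mq) (xr, b + mr) := by
  have hN : (0 : ℝ) ≤ N := Nat.cast_nonneg _
  have e : o (xp, b + mp) (xq, b + mq) (xr, b + mr) =
      (xq - xp) * (mr - mp) - (mq - mp) * (xr - xp) := by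
    unfold o
    simp only
    ring
  rw [e]
  have h1 : |mq - mp| ≤ m := by
    rw [abs_le]
    constructor <;> linarith
  have h2 := abs_mul_le h1 hpr (by linarith)
  have h3 := (abs_le.mp h2).2
  have h8 : ((N : ℝ) + 3) * m - m ≤ mr - mp := by linarith
  have h7 : 0 ≤ mr - mp := by nlinarith
  have h9 : mr - mp ≤ (xq - xp) * (mr - mp) := by nlinarith
  have h10 : m * (N + 1) < ((N : ℝ) + 3) * m - m := by nlinarith
  linarith

section

variable {V : Type} {a b c : V} {E : V → V → Prop} {F : V → V → V → Prop} {N : ℕ}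
  {σ : ℕ → ℕ} {k ρ : V → ℕ}

theorem co_a : co a N σ k ρ a = (ww N σ, 0) := by
  unfold co
  rw [if_pos rfl]

theorem co_ne {v : V} (hv : v ≠ a) :
    co a N σ k ρ v = ((ρ v : ℝ), bb N ^ σ (k v) + ((N : ℝ) + 3) ^ k v) := by
  unfold co
  rw [if_neg hv]

theorem rho_bd (hL : Lay a b c E F N σ k ρ) {x : V} (hx : Rel E x) (hxa : x ≠ a) :
    (0 : ℝ) ≤ (ρ x : ℝ) ∧ (ρ x : ℝ) ≤ (N : ℝ) + 1 := by
  refine ⟨Nat.cast_nonneg _, ?_⟩
  exact_mod_cast hL.rl x hx hxa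

theorem rho_abs (hL : Lay a b c E F N σ k ρ) {x y : V} (hx : Rel E x) (hxa : x ≠ a)
    (hy : Rel E y) (hya : y ≠ a) : |(ρ x : ℝ) - (ρ y : ℝ)| ≤ (N : ℝ) + 1 := by
  obtain ⟨h1, h2⟩ := rho_bd hL hx hxa
  obtain ⟨h3, h4⟩ := rho_bd hL hy hya
  rw [abs_le]
  constructor <;> linarith

theorem rho_lt {x y : V} (h : ρ x < ρ y) : (ρ x : ℝ) + 1 ≤ (ρ y : ℝ) := by
  exact_mod_cast h

/-- the second coordinate grows with the index -/
theorem y_mono (hσ : Monotone σ) (i j : ℕ) (h : i < j) :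
    bb N ^ σ i + ((N : ℝ) + 3) ^ i + 1 ≤ bb N ^ σ j + ((N : ℝ) + 3) ^ j := by
  have h1 : bb N ^ σ i ≤ bb N ^ σ j := pow_le_pow_right₀ (bb_ge N) (hσ h.le)
  have hM : (1 : ℝ) ≤ (N : ℝ) + 3 := by
    have : (0 : ℝ) ≤ N := Nat.cast_nonneg _
    linarith
  have h2 : ((N : ℝ) + 3) ^ (i + 1) ≤ ((N : ℝ) + 3) ^ j := pow_le_pow_right₀ hM h
  have h3 : 1 ≤ ((N : ℝ) + 3) ^ i := one_le_pow₀ hM
  rw [pow_succ] at h2
  have : (0 : ℝ) ≤ N := Nat.cast_nonneg _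
  nlinarith

theorem y_nonneg (i : ℕ) : 0 ≤ bb N ^ σ i + ((N : ℝ) + 3) ^ i := by
  have h1 : 0 ≤ bb N ^ σ i := pow_nonneg (zero_le_one.trans (bb_ge N)) _
  positivity

/-- (1) -/
theorem oa_pos (hσ : Monotone σ) (hL : Lay a b c E F N σ k ρ) {p q : V} (hp : Rel E p)
    (hq : Rel E q) (hpa : p ≠ a) (hqa : q ≠ a) (hpq : k p < k q) :
    0 < o (co a N σ k ρ a) (co a N σ k ρ q) (co a N σ k ρ p) := by
  rw [co_a, co_ne hqa, co_ne hpa]
  obtain ⟨h1, h2⟩ := rho_bd hL hp hpa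
  have h3 := (rho_bd hL hq hqa).1
  refine ggp1 N (ww N σ) _ _ _ _ (bb N ^ σ (N + 1) + hh N) ?_ h1 h2 h3 (y_nonneg _)
    (y_mono hσ _ _ hpq) ?_
  · unfold ww
    rfl
  · have e1 : bb N ^ σ (k q) ≤ bb N ^ σ (N + 1) := pow_le_pow_right₀ (bb_ge N) (hσ (hL.kl q hq hqa))
    have e2 := (hh_ge N (hL.kl q hq hqa)).2
    linarith

/-- (2) -/
theorem up_pos (hL : Lay a b c E F N σ k ρ) {p q r : V} (hp : Rel E p)
    (hq : Rel E q) (hr : Rel E r) (hpa : p ≠ a) (hqa : q ≠ a) (hra : r ≠ a)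
    (hpr : σ (k p) < σ (k r)) (hqr : σ (k q) < σ (k r)) (hρ : ρ p < ρ q) :
    0 < o (co a N σ k ρ p) (co a N σ k ρ q) (co a N σ k ρ r) := by
  rw [co_ne hqa, co_ne hpa, co_ne hra]
  obtain ⟨L, hL1, hLB, hLt⟩ := bb_slice N (σ (k r)) (by omega)
  have e1 := hLt _ hpr
  have e2 := hLt _ hqr
  have e3 := hh_ge N (hL.kl p hp hpa)
  have e4 := hh_ge N (hL.kl q hq hqa)
  have e5 := hh_ge N (hL.kl r hr hra)
  refine ggp2 N L _ _ _ _ _ _ hL1 (rho_lt hρ) (rho_abs hL hr hra hp hpa) (y_nonneg _) ?_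
    (y_nonneg _) ?_ ?_
  · linarith
  · linarith
  · rw [hLB]
    linarith

/-- (3) -/
theorem dn_pos (hL : Lay a b c E F N σ k ρ) {p q r : V} (hp : Rel E p)
    (hq : Rel E q) (hr : Rel E r) (hpa : p ≠ a) (hqa : q ≠ a) (hra : r ≠ a)
    (hpq : σ (k p) = σ (k q)) (hrp : σ (k r) < σ (k p)) (hρ : ρ p < ρ q) :
    0 < o (co a N σ k ρ q) (co a N σ k ρ p) (co a N σ k ρ r) := by
  rw [co_ne hqa, co_ne hpa, co_ne hra]
  obtain ⟨L, hL1, hLB, hLt⟩ := bb_slice N (σ (k p)) (by omega)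
  have e1 := hLt _ hrp
  have e3 := hh_ge N (hL.kl p hp hpa)
  have e4 := hh_ge N (hL.kl q hq hqa)
  have e5 := hh_ge N (hL.kl r hr hra)
  refine ggp3 N L _ _ _ _ _ _ hL1 (rho_lt hρ) (rho_abs hL hr hra hp hpa) ?_ ?_ ?_
  · rw [hpq, abs_le]
    constructor <;> linarith
  · rw [hLB]
    linarith
  · linarith

/-- (4) -/
theorem in_pos (hL : Lay a b c E F N σ k ρ) {p q r : V} (hp : Rel E p)
    (hr : Rel E r) (hpa : p ≠ a) (hqa : q ≠ a) (hra : r ≠ a)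
    (hpr : σ (k p) = σ (k r)) (hqr : σ (k q) = σ (k r)) (hkp : k p < k r) (hkq : k q < k r)
    (hρ : ρ p < ρ q) :
    0 < o (co a N σ k ρ p) (co a N σ k ρ q) (co a N σ k ρ r) := by
  rw [co_ne hqa, co_ne hpa, co_ne hra, hpr, hqr]
  have hM : (1 : ℝ) ≤ (N : ℝ) + 3 := by
    have : (0 : ℝ) ≤ N := Nat.cast_nonneg _
    linarith
  have hM0 : (0 : ℝ) ≤ (N : ℝ) + 3 := by linarith
  refine ggp4 N _ (((N : ℝ) + 3) ^ (max (k p) (k q))) _ _ _ _ _ _ (one_le_pow₀ hM) (rho_lt hρ)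
    (rho_abs hL hr hra hp hpa) (pow_nonneg hM0 _) (pow_le_pow_right₀ hM (le_max_left _ _))
    (pow_nonneg hM0 _) (pow_le_pow_right₀ hM (le_max_right _ _)) ?_
  rw [mul_comm, ← pow_succ]
  exact pow_le_pow_right₀ hM (by omega)

theorem ne_rot {p q r : ℝ × ℝ} (h : o p q r ≠ 0) : o q r p ≠ 0 := by
  rw [← o_rot]
  exact h

theorem ne_swap {p q r : ℝ × ℝ} (h : o p q r ≠ 0) : o q p r ≠ 0 := by
  rw [o_swap]
  exact neg_ne_zero.mpr h

/-- the case in which `z` is the last one -/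
theorem ggp_last (hσ : Monotone σ) (hL : Lay a b c E F N σ k ρ) {x y z : V} (hx : Rel E x)
    (hy : Rel E y) (hz : Rel E z) (hxa : x ≠ a) (hya : y ≠ a) (hza : z ≠ a) (hxy : x ≠ y)
    (hxz : x ≠ z) (hyz : y ≠ z) (h1 : k x < k z) (h2 : k y < k z) :
    o (co a N σ k ρ x) (co a N σ k ρ y) (co a N σ k ρ z) ≠ 0 := by
  have s1 : σ (k x) ≤ σ (k z) := hσ h1.le
  have s2 : σ (k y) ≤ σ (k z) := hσ h2.le
  have rxy : ρ x ≠ ρ y := fun h => hxy (hL.ri x y hx hy hxa hya h)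
  have rxz : ρ x ≠ ρ z := fun h => hxz (hL.ri x z hx hz hxa hza h)
  have ryz : ρ y ≠ ρ z := fun h => hyz (hL.ri y z hy hz hya hza h)
  rcases lt_or_eq_of_le s1 with s1 | s1
  · rcases lt_or_eq_of_le s2 with s2 | s2
    · rcases lt_or_gt_of_ne rxy with hr | hr
      · exact (up_pos hL hx hy hz hxa hya hza s1 s2 hr).ne'
      · exact ne_swap (up_pos hL hy hx hz hya hxa hza s2 s1 hr).ne'
    · -- `y`, `z` in the highest slice
      rw [← s2] at s1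
      rcases lt_or_gt_of_ne ryz with hr | hr
      · have := (dn_pos hL hy hz hx hya hza hxa s2 s1 hr).ne'
        exact ne_rot (ne_rot (ne_swap this))
      · have := (dn_pos hL hz hy hx hza hya hxa s2.symm (by rw [← s2]; exact s1) hr).ne'
        exact ne_rot (ne_rot this)
  · rcases lt_or_eq_of_le s2 with s2 | s2
    · rw [← s1] at s2
      rcases lt_or_gt_of_ne rxz with hr | hr
      · have := (dn_pos hL hx hz hy hxa hza hya s1 s2 hr).ne'
        exact ne_rot this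
      · have := (dn_pos hL hz hx hy hza hxa hya s1.symm (by rw [← s1]; exact s2) hr).ne'
        exact ne_rot (ne_swap this)
    · rcases lt_or_gt_of_ne rxy with hr | hr
      · exact (in_pos hL hx hz hxa hya hza s1 s2 h1 h2 hr).ne'
      · exact ne_swap (in_pos hL hy hz hya hxa hza s2 s1 h2 h1 hr).ne'

theorem ggp_a (hσ : Monotone σ) (hL : Lay a b c E F N σ k ρ) {y z : V}
    (hy : Rel E y) (hz : Rel E z) (hya : y ≠ a) (hza : z ≠ a)
    (hyz : y ≠ z) : o (co a N σ k ρ a) (co a N σ k ρ y) (co a N σ k ρ z) ≠ 0 := by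
  have kyz : k y ≠ k z := fun h => hyz (hL.ki y z hy hz hya hza h)
  rcases lt_or_gt_of_ne kyz with h | h
  · have := (oa_pos hσ hL hy hz hya hza h).ne'
    exact ne_rot (ne_rot (ne_swap (ne_rot this)))
  · exact (oa_pos hσ hL hz hy hza hya h).ne'

end

theorem ggp : GgpStmt := by
  intro V a b c E F N σ k ρ hσ hL x y z hx hy hz hxy hxz hyz
  by_cases hxa : x = a
  · subst hxa
    exact ggp_a hσ hL hy hz hxy.symm hxz.symm hyz
  by_cases hya : y = a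
  · subst hya
    exact ne_swap (ggp_a hσ hL hx hz hxy hyz.symm hxz)
  by_cases hza : z = a
  · subst hza
    exact ne_rot (ggp_a hσ hL hx hy hxz hyz hxy)
  have kxy : k x ≠ k y := fun h => hxy (hL.ki x y hx hy hxa hya h)
  have kxz : k x ≠ k z := fun h => hxz (hL.ki x z hx hz hxa hza h)
  have kyz : k y ≠ k z := fun h => hyz (hL.ki y z hy hz hya hza h)
  rcases lt_or_gt_of_ne kxz with h1 | h1
  · rcases lt_or_gt_of_ne kyz with h2 | h2
    · exact ggp_last hσ hL hx hy hz hxa hya hza hxy hxz hyz h1 h2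
    · -- `y` last
      have := ggp_last hσ hL hz hx hy hza hxa hya hxz.symm hyz.symm hxy h2 (by omega)
      exact ne_rot this
  · rcases lt_or_gt_of_ne kxy with h2 | h2
    · have := ggp_last hσ hL hz hx hy hza hxa hya hxz.symm hyz.symm hxy (by omega) h2
      exact ne_rot this
    · have := ggp_last hσ hL hy hz hx hya hza hxa hyz hxy.symm hxz.symm h2 h1
      exact ne_rot (ne_rot this)

end Pool.Agent.SGL.H88
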